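import Pool.Agent.Y661.GL.Stm

/-!
Project GL, job GL-EX (helper564): almost spectral isometries do not preserve the Glimm ideals.
-/

set_option autoImplicit false

open scoped Matrix.Norms.L2Operator

noncomputable section

namespace Pool.Agent.Y564.GL

open Pool.Agent.Helper757.GL

abbrev M : Type := Matrix (Fin 2) (Fin 2) ℂ

theorem mm (a b : M) (i j : Fin 2) : (a * b) i j = a i 0 * b 0 j + a i 1 * b 1 j := by
  rw [Matrix.mul_apply, Fin.sum_univ_two]

/-- the functions which are diagonal at `0` -/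
def D : StarSubalgebra ℂ C(unitInterval, M) where
  carrier := {f | (f 0) 0 1 = 0 ∧ (f 0) 1 0 = 0}
  mul_mem' := by
    rintro f g ⟨h1, h2⟩ ⟨h3, h4⟩
    constructor
    · rw [ContinuousMap.mul_apply, mm, h1, h3]; ring
    · rw [ContinuousMap.mul_apply, mm, h2, h4]; ring
  add_mem' := by
    rintro f g ⟨h1, h2⟩ ⟨h3, h4⟩
    constructor
    · rw [ContinuousMap.add_apply, Matrix.add_apply, h1, h3, add_zero]
    · rw [ContinuousMap.add_apply, Matrix.add_apply, h2, h4, add_zero]
  algebraMap_mem' := by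
    intro c
    constructor
    · show (algebraMap ℂ M c) 0 1 = 0
      rw [Matrix.algebraMap_matrix_apply, if_neg (by decide)]
    · show (algebraMap ℂ M c) 1 0 = 0
      rw [Matrix.algebraMap_matrix_apply, if_neg (by decide)]
  star_mem' := by
    rintro f ⟨h1, h2⟩
    constructor
    · rw [ContinuousMap.star_apply, Matrix.star_apply, h2, star_zero]
    · rw [ContinuousMap.star_apply, Matrix.star_apply, h1, star_zero]

theorem cont_entry (i j : Fin 2) (f : C(unitInterval, M)) : Continuous fun t => f t i j :=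
  f.continuous.matrix_elem i j

theorem D_closed : IsClosed (D : Set C(unitInterval, M)) := by
  have e : ∀ i j : Fin 2, Continuous fun f : C(unitInterval, M) => f 0 i j := fun i j =>
    (continuous_eval_const (0 : unitInterval)).matrix_elem i j
  have h : (D : Set C(unitInterval, M)) = {f | (f 0) 0 1 = 0} ∩ {f | (f 0) 1 0 = 0} := rfl
  rw [h]
  exact (isClosed_eq (e 0 1) continuous_const).inter (isClosed_eq (e 1 0) continuous_const)

instance : IsClosed (D : Set C(unitInterval, M)) := D_closed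

instance instD : CStarAlgebra D := StarSubalgebra.cstarAlgebra D

/-- evaluation -/
def ev (t : unitInterval) : D →ₐ[ℂ] M where
  toFun f := (f : C(unitInterval, M)) t
  map_one' := rfl
  map_mul' _ _ := rfl
  map_zero' := rfl
  map_add' _ _ := rfl
  commutes' _ := rfl

theorem ev01 (f : D) : ev 0 f 0 1 = 0 := f.2.1

theorem ev10 (f : D) : ev 0 f 1 0 = 0 := f.2.2

theorem ev_ext {f g : D} (h : ∀ t, ev t f = ev t g) : f = g :=
  Subtype.ext (ContinuousMap.ext h)

instance : Nontrivial D := ⟨⟨0, 1, fun h => by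
  have h1 := congrArg (fun f : D => ev 0 f 0 0) h
  simp only [map_zero, map_one, Matrix.zero_apply, Matrix.one_apply_eq] at h1
  exact zero_ne_one h1⟩⟩

def ph0 : D →ₐ[ℂ] ℂ where
  toFun f := ev 0 f 0 0
  map_one' := by rw [map_one, Matrix.one_apply_eq]
  map_mul' f g := by rw [map_mul, mm, ev01 f]; ring
  map_zero' := by rw [map_zero, Matrix.zero_apply]
  map_add' f g := by rw [map_add, Matrix.add_apply]
  commutes' c := by
    rw [AlgHom.commutes, Matrix.algebraMap_matrix_apply, if_pos rfl]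

def ph1 : D →ₐ[ℂ] ℂ where
  toFun f := ev 0 f 1 1
  map_one' := by rw [map_one, Matrix.one_apply_eq]
  map_mul' f g := by rw [map_mul, mm, ev10 f]; ring
  map_zero' := by rw [map_zero, Matrix.zero_apply]
  map_add' f g := by rw [map_add, Matrix.add_apply]
  commutes' c := by
    rw [AlgHom.commutes, Matrix.algebraMap_matrix_apply, if_pos rfl]

def phi (f : D) : ℂ := ph0 f - ph1 f

theorem phi_add (f g : D) : phi (f + g) = phi f + phi g := by
  unfold phi; rw [map_add, map_add]; ring

theorem phi_smul (c : ℂ) (f : D) : phi (c • f) = c * phi f := by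
  unfold phi; rw [map_smul, map_smul, smul_eq_mul, smul_eq_mul]; ring

/-- the function `g N` -/
def fn (g : C(unitInterval, ℂ)) (N : M) : C(unitInterval, M) :=
  ⟨fun t => g t • N, g.continuous.smul continuous_const⟩

/-- the function `g N` if `g 0 = 0` or `N` is diagonal -/
def fe (g : C(unitInterval, ℂ)) (N : M) (h : g 0 * N 0 1 = 0 ∧ g 0 * N 1 0 = 0) : D :=
  ⟨fn g N, h⟩

theorem ev_fe (g : C(unitInterval, ℂ)) (N : M) (h : g 0 * N 0 1 = 0 ∧ g 0 * N 1 0 = 0)
    (t : unitInterval) : ev t (fe g N h) = g t • N := rfl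

/-- the coordinate -/
def tt : C(unitInterval, ℂ) := ⟨fun t => ((t : ℝ) : ℂ), by fun_prop⟩

theorem tt_apply (t : unitInterval) : tt t = ((t : ℝ) : ℂ) := rfl

/-- one minus the coordinate -/
def t1 : C(unitInterval, ℂ) := ⟨fun t => 1 - ((t : ℝ) : ℂ), by fun_prop⟩

theorem t1_apply (t : unitInterval) : t1 t = 1 - ((t : ℝ) : ℂ) := rfl

theorem tt0 : tt 0 = 0 := by rw [tt_apply]; simp

def hh : D := fe tt 1 (by rw [tt0]; simp)

theorem ev_hh (t : unitInterval) : ev t hh = ((t : ℝ) : ℂ) • (1 : M) := rfl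

theorem phi_hh : phi hh = 0 := by
  show ev 0 hh 0 0 - ev 0 hh 1 1 = 0
  rw [ev_hh]
  simp

theorem phi_one : phi 1 = 0 := by
  unfold phi; rw [map_one, map_one, sub_self]

/-- the spectrum of a perturbation -/
theorem spec_bound (c : ℂ) (f : D) (μ : ℂ) (hμ : μ ∈ spectrum ℂ (f + c • hh)) :
    ∃ s : ℂ, ‖s‖ ≤ 1 ∧ μ - c * s ∈ spectrum ℂ f := by
  have h1 : ∃ t, μ ∈ spectrum ℂ (ev t (f + c • hh)) := by
    by_contra hcon
    push Not at hcon
    rw [spectrum.mem_iff] at hμ
    apply hμ
    rw [← StarSubalgebra.coe_isUnit, ContinuousMap.isUnit_iff_forall_isUnit]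
    intro t
    have h2 := hcon t
    rw [spectrum.notMem_iff] at h2
    have h3 : algebraMap ℂ M μ - ev t (f + c • hh) = ev t (algebraMap ℂ D μ - (f + c • hh)) := by
      rw [map_sub, AlgHom.commutes]
    rw [h3] at h2
    exact h2
  obtain ⟨t, ht⟩ := h1
  refine ⟨((t : ℝ) : ℂ), ?_, ?_⟩
  · rw [Complex.norm_real, Real.norm_eq_abs, abs_of_nonneg t.2.1]
    exact t.2.2
  · have h2 : ev t (f + c • hh) = algebraMap ℂ M (c * ((t : ℝ) : ℂ)) + ev t f := by
      rw [map_add, map_smul, ev_hh, smul_smul, Algebra.algebraMap_eq_smul_one, add_comm]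
    rw [h2] at ht
    have h3 : μ = (μ - c * ((t : ℝ) : ℂ)) + c * ((t : ℝ) : ℂ) := by ring
    rw [h3, spectrum.add_mem_add_iff] at ht
    exact AlgHom.spectrum_apply_subset (ev t) f ht

theorem rad (d : ℂ) (e : ℝ) (he : 0 ≤ e) (hd : ‖d‖ = e / 2) (f : D) :
    spectralRadius ℂ (f + (d * phi f) • hh) ≤ ENNReal.ofReal (1 + e) * spectralRadius ℂ f := by
  obtain ⟨z, -, hz⟩ := spectrum.exists_nnnorm_eq_spectralRadius (A := D) f
  have hle : ∀ ν ∈ spectrum ℂ f, ‖ν‖ ≤ ‖z‖ := by
    intro ν hν
    have h1 : (‖ν‖₊ : ENNReal) ≤ spectralRadius ℂ f := le_iSup₂ (α := ENNReal) ν hν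
    rw [← hz] at h1
    exact_mod_cast h1
  refine iSup₂_le fun μ hμ => ?_
  obtain ⟨s, hs, h1⟩ := spec_bound _ _ _ hμ
  have h2 := hle _ h1
  have h3 : ‖ph0 f‖ ≤ ‖z‖ := hle _ (AlgHom.apply_mem_spectrum ph0 f)
  have h4 : ‖ph1 f‖ ≤ ‖z‖ := hle _ (AlgHom.apply_mem_spectrum ph1 f)
  have h5 : ‖phi f‖ ≤ 2 * ‖z‖ := by
    refine (norm_sub_le _ _).trans ?_
    linarith
  have h6 : ‖μ‖ ≤ (1 + e) * ‖z‖ := by
    calc ‖μ‖ = ‖(μ - d * phi f * s) + d * phi f * s‖ := by rw [sub_add_cancel]
      _ ≤ ‖μ - d * phi f * s‖ + ‖d * phi f * s‖ := norm_add_le _ _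
      _ ≤ ‖z‖ + e / 2 * (2 * ‖z‖) * 1 := by
          refine add_le_add h2 ?_
          rw [norm_mul, norm_mul, hd]
          exact mul_le_mul (mul_le_mul_of_nonneg_left h5 (by linarith)) hs (norm_nonneg _)
            (by positivity)
      _ = (1 + e) * ‖z‖ := by ring
  rw [← hz, ← ENNReal.ofReal_coe_nnreal, ← ENNReal.ofReal_coe_nnreal (p := ‖z‖₊),
    ← ENNReal.ofReal_mul (by linarith)]
  exact ENNReal.ofReal_le_ofReal h6

/-- the almost spectral isometry -/
def Te (d : ℂ) : D ≃ₗ[ℂ] D where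
  toFun f := f + (d * phi f) • hh
  invFun f := f + (-d * phi f) • hh
  map_add' f g := by
    rw [phi_add, mul_add, add_smul]
    abel
  map_smul' c f := by
    rw [phi_smul, RingHom.id_apply, smul_add, smul_smul]
    congr 2
    ring
  left_inv f := by
    show f + (d * phi f) • hh + (-d * phi (f + (d * phi f) • hh)) • hh = f
    rw [phi_add, phi_smul, phi_hh, mul_zero, add_zero, add_assoc, ← add_smul]
    rw [show d * phi f + -d * phi f = 0 by ring, zero_smul, add_zero]
  right_inv f := by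
    show f + (-d * phi f) • hh + (d * phi (f + (-d * phi f) • hh)) • hh = f
    rw [phi_add, phi_smul, phi_hh, mul_zero, add_zero, add_assoc, ← add_smul]
    rw [show -d * phi f + d * phi f = 0 by ring, zero_smul, add_zero]

theorem Te_apply (d : ℂ) (f : D) : Te d f = f + (d * phi f) • hh := rfl

theorem Te_inv (d : ℂ) (f : D) : Te d f + (-d * phi (Te d f)) • hh = f := (Te d).left_inv f

/-- central elements are scalar -/
theorem central {z : D} (hz : z ∈ Subalgebra.center ℂ D) (t : unitInterval) :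
    (t : ℝ) ≠ 0 → ev t z 0 1 = 0 ∧ ev t z 1 0 = 0 ∧ ev t z 0 0 = ev t z 1 1 := by
  intro ht
  rw [Subalgebra.mem_center_iff] at hz
  have ht' : ((t : ℝ) : ℂ) ≠ 0 := by exact_mod_cast ht
  have key : ∀ N : M, N * ev t z = ev t z * N := by
    intro N
    have h1 := congrArg (ev t) (hz (fe tt N (by rw [tt0]; simp)))
    rw [map_mul, map_mul, ev_fe, tt_apply, smul_mul_assoc, mul_smul_comm] at h1
    exact smul_right_injective _ ht' h1
  have h1 := key !![0, 1; 0, 0]
  have h2 := key !![0, 0; 1, 0]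
  have a1 := congrFun (congrFun h1 0) 0
  have a2 := congrFun (congrFun h1 0) 1
  have a3 := congrFun (congrFun h2 0) 0
  rw [mm, mm] at a1 a2 a3
  simp at a1 a2 a3
  exact ⟨a3.symm, a1, a2.symm⟩

theorem phi_central {z : D} (hz : z ∈ Subalgebra.center ℂ D) : phi z = 0 := by
  have hc : Continuous fun t : unitInterval => ev t z 0 0 - ev t z 1 1 :=
    (cont_entry 0 0 z.1).sub (cont_entry 1 1 z.1)
  obtain ⟨s, hs0, hs⟩ : ∃ s : ℕ → unitInterval, (∀ n, (s n : ℝ) ≠ 0) ∧
      Filter.Tendsto s Filter.atTop (nhds 0) := by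
    refine ⟨fun n => ⟨1 / ((n : ℝ) + 1), by positivity, ?_⟩, fun n => ?_, ?_⟩
    · rw [div_le_one (by positivity)]
      have : (0 : ℝ) ≤ n := Nat.cast_nonneg n
      linarith
    · simp only
      positivity
    · rw [tendsto_subtype_rng]
      exact tendsto_one_div_add_atTop_nhds_zero_nat
  have h1 := (hc.tendsto 0).comp hs
  have h2 : (fun t : unitInterval => ev t z 0 0 - ev t z 1 1) ∘ s = fun _ => 0 := by
    funext n
    simp only [Function.comp_apply]
    rw [(central hz (s n) (hs0 n)).2.2, sub_self]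
  rw [h2] at h1
  exact tendsto_nhds_unique h1 tendsto_const_nhds

theorem main : Pool.Agent.Y661.GL.S_EX := by
  intro ε hε
  have hd : ‖((ε / 2 : ℝ) : ℂ)‖ = ε / 2 := by
    rw [Complex.norm_real, Real.norm_eq_abs, abs_of_pos (by linarith)]
  have hd' : ‖-((ε / 2 : ℝ) : ℂ)‖ = ε / 2 := by rw [norm_neg, hd]
  have hfix : ∀ z ∈ Subalgebra.center ℂ D, Te ((ε / 2 : ℝ) : ℂ) z = z := by
    intro z hz
    rw [Te_apply, phi_central hz, mul_zero, zero_smul, add_zero]
  -- the maximal ideal
  obtain ⟨χ, hχ⟩ : ∃ χ : Subalgebra.center ℂ D →+* ℂ, ∀ z, χ z = ev 1 (z : D) 0 0 :=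
    ⟨{ toFun := fun z => ev 1 (z : D) 0 0
       map_one' := by
         show ev 1 (1 : D) 0 0 = 1
         rw [map_one, Matrix.one_apply_eq]
       map_mul' := fun z w => by
         show ev 1 ((z : D) * (w : D)) 0 0 = _
         rw [map_mul, mm, (central z.2 1 (by simp)).1]
         ring
       map_zero' := by
         show ev 1 (0 : D) 0 0 = 0
         rw [map_zero, Matrix.zero_apply]
       map_add' := fun z w => by
         show ev 1 ((z : D) + (w : D)) 0 0 = _
         rw [map_add, Matrix.add_apply] }, fun _ => rfl⟩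
  have hsurj : Function.Surjective χ := by
    intro c
    refine ⟨algebraMap ℂ _ c, ?_⟩
    rw [hχ]
    show ev 1 (algebraMap ℂ D c) 0 0 = c
    rw [AlgHom.commutes, Matrix.algebraMap_matrix_apply, if_pos rfl]
    rfl
  refine ⟨D, inferInstance, Te ((ε / 2 : ℝ) : ℂ), ?_, hfix, ?_, ?_, RingHom.ker χ, ?_, ?_⟩
  · rw [Te_apply, phi_one, mul_zero, zero_smul, add_zero]
  · intro x
    exact rad _ ε hε.le hd x
  · intro x
    have h1 := rad _ ε hε.le hd' (Te ((ε / 2 : ℝ) : ℂ) x)
    rw [Te_inv] at h1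
    exact h1
  · exact RingHom.ker_isMaximal_of_surjective χ hsurj
  · refine ⟨fe t1 !![1, 0; 0, 0] (by simp), ?_, ?_⟩
    · intro I _ hI
      have hzc : fe t1 1 (by simp) ∈ Subalgebra.center ℂ D := by
        rw [Subalgebra.mem_center_iff]
        intro b
        apply ev_ext
        intro t
        rw [map_mul, map_mul, ev_fe, mul_smul_comm, smul_mul_assoc, mul_one, one_mul]
      have h1 : fe t1 1 (by simp) ∈ I := hI ⟨⟨_, hzc⟩, by
        rw [RingHom.mem_ker, hχ]
        show ev 1 (fe t1 1 _) 0 0 = 0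
        rw [ev_fe, t1_apply]
        simp, rfl⟩
      have h2 := I.mul_mem_right _ (fe 1 !![1, 0; 0, 0] (by simp)) h1
      have h3 : fe t1 1 (by simp) * fe 1 !![1, 0; 0, 0] (by simp) =
          fe t1 !![1, 0; 0, 0] (by simp) := by
        apply ev_ext
        intro t
        rw [map_mul, ev_fe, ev_fe, ev_fe, smul_mul_assoc, one_mul, ContinuousMap.one_apply,
          one_smul]
      rw [h3] at h2
      exact h2
    · intro hcon
      have h1 := hcon (TwoSidedIdeal.ker (ev 1)) ?_ ?_
      · rw [TwoSidedIdeal.mem_ker, Te_apply, map_add, map_smul, ev_fe, ev_hh, t1_apply] at h1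
        have h2 := congrFun (congrFun h1 0) 0
        have h3 : phi (fe t1 !![1, 0; 0, 0] (by simp)) = 1 := by
          show (t1 0 • (!![1, 0; 0, 0] : M)) 0 0 - (t1 0 • (!![1, 0; 0, 0] : M)) 1 1 = 1
          rw [t1_apply]
          simp
        rw [h3] at h2
        simp at h2
        exact hε.ne' h2
      · have h2 : ((TwoSidedIdeal.ker (ev 1) : TwoSidedIdeal D) : Set D) =
            {f : D | ev 1 f = 0} := by
          ext f
          exact TwoSidedIdeal.mem_ker _
        rw [h2]
        have h3 : Continuous fun f : D => ev 1 f :=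
          (continuous_eval_const (1 : unitInterval)).comp continuous_subtype_val
        exact isClosed_eq h3 continuous_const
      · rintro _ ⟨_, ⟨z, hz, rfl⟩, rfl⟩
        rw [hfix _ z.2]
        show (z : D) ∈ TwoSidedIdeal.ker (ev 1)
        rw [TwoSidedIdeal.mem_ker]
        rw [RingHom.mem_ker, hχ] at hz
        have h2 := central z.2 1 (by simp)
        ext i j
        fin_cases i <;> fin_cases j
        · exact hz
        · exact h2.1
        · exact h2.2.1
        · exact h2.2.2.symm.trans hz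

end Pool.Agent.Y564.GL
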